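import Pool.Agent.H20.G.R_seed8.TH602.Turan.Bip

/-!
# Relations closed under meets: complete bipartite subgraphs
-/

set_option autoImplicit false

namespace Pool.Agent.TH602.Turan

open Finset SimpleGraph

theorem pow_le_choose_add (d p : ℕ) (hp : 1 ≤ p) : d ^ p ≤ (2 * p) ^ p * (d.choose p + 1) := by
  have h1 : d ≤ 2 * max (d + 1 - p) p := by omega
  have h2 : (d + 1 - p) ^ p ≤ p.factorial * d.choose p := by
    have h := Nat.pow_le_choose (α := ℚ) p d
    rw [div_le_iff₀ (by exact_mod_cast p.factorial_pos)] at h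
    have h' : (d + 1 - p) ^ p ≤ d.choose p * p.factorial := by exact_mod_cast h
    rwa [mul_comm] at h'
  have h3 : (max (d + 1 - p) p) ^ p ≤ p ^ p * (d.choose p + 1) := by
    rcases le_total (d + 1 - p) p with h | h
    · rw [max_eq_right h]
      exact Nat.le_mul_of_pos_right _ (by omega)
    · rw [max_eq_left h]
      calc (d + 1 - p) ^ p ≤ p.factorial * d.choose p := h2
        _ ≤ p ^ p * (d.choose p + 1) := Nat.mul_le_mul (Nat.factorial_le_pow p) (by omega)
  calc d ^ p ≤ (2 * max (d + 1 - p) p) ^ p := Nat.pow_le_pow_left h1 p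
    _ = 2 ^ p * (max (d + 1 - p) p) ^ p := by rw [mul_pow]
    _ ≤ 2 ^ p * (p ^ p * (d.choose p + 1)) := Nat.mul_le_mul_left _ h3
    _ = (2 * p) ^ p * (d.choose p + 1) := by rw [mul_pow]; ring

/-- Kővári–Sós–Turán in the form needed here. -/
theorem kst {X Y : Type*} [Fintype X] [Fintype Y] [DecidableEq X] [DecidableEq Y]
    (L : Finset (X × Y)) (p t : ℕ) (hp : 1 ≤ p) (ht : 1 ≤ t)
    (h : ∀ (S : Finset X) (T : Finset Y), #S = p → #T = t → ¬∀ x ∈ S, ∀ y ∈ T, (x, y) ∈ L) :
    #L ^ p ≤ (2 * p) ^ p * t * (Fintype.card X + Fintype.card Y) ^ (2 * p - 1) := by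
  set N := Fintype.card X + Fintype.card Y with hN
  let d : Y → ℕ := fun y => #(univ.filter fun x => (x, y) ∈ L)
  have h1 : #L = ∑ y, d y := by
    rw [card_eq_sum_card_fiberwise (f := Prod.snd) (s := L) (t := univ) fun _ _ => by simp]
    refine sum_congr rfl fun y _ => ?_
    refine card_bij' (fun e _ => e.1) (fun x _ => (x, y)) ?_ ?_ ?_ ?_
    · rintro ⟨a, b⟩ he
      simp only [mem_filter, mem_univ, true_and] at he ⊢
      rw [← he.2]; exact he.1
    · intro x hx
      simp only [mem_filter, mem_univ, true_and] at hx ⊢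
      exact ⟨hx, trivial⟩
    · rintro ⟨a, b⟩ he
      simp only [mem_filter] at he
      rw [← he.2]
    · intro x hx
      rfl
  have h2 : ∑ y, (d y).choose p ≤ (t - 1) * N ^ p := by
    have h3 : ∑ y, (d y).choose p = ∑ S ∈ powersetCard p (univ : Finset X),
        #(univ.filter fun y : Y => ∀ x ∈ S, (x, y) ∈ L) := by
      have h4 := sum_card_bipartiteAbove_eq_sum_card_bipartiteBelow
        (r := fun (y : Y) (S : Finset X) => ∀ x ∈ S, (x, y) ∈ L)
        (s := (univ : Finset Y)) (t := powersetCard p (univ : Finset X))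
      refine Eq.trans (sum_congr rfl fun y _ => ?_) h4
      rw [← card_powersetCard]
      congr 1
      ext S
      simp only [mem_powersetCard, bipartiteAbove, mem_filter, subset_univ, true_and]
      constructor
      · rintro ⟨hS, hc⟩
        exact ⟨hc, fun x hx => by simpa using hS hx⟩
      · rintro ⟨hc, hS⟩
        exact ⟨fun x hx => by simpa using hS x hx, hc⟩
    rw [h3]
    calc ∑ S ∈ powersetCard p (univ : Finset X), #(univ.filter fun y : Y => ∀ x ∈ S, (x, y) ∈ L)
        ≤ ∑ S ∈ powersetCard p (univ : Finset X), (t - 1) := by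
          refine sum_le_sum fun S hS => ?_
          by_contra hcon
          push Not at hcon
          have hcon' : t ≤ #(univ.filter fun y : Y => ∀ x ∈ S, (x, y) ∈ L) := by omega
          obtain ⟨T, hT, hTc⟩ := exists_subset_card_eq hcon'
          exact h S T (mem_powersetCard.1 hS).2 hTc fun x hx y hy =>
            (mem_filter.1 (hT hy)).2 x hx
      _ = (Fintype.card X).choose p * (t - 1) := by
          rw [sum_const, card_powersetCard, smul_eq_mul, card_univ]
      _ ≤ N ^ p * (t - 1) := by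
          refine Nat.mul_le_mul_right _ ((Nat.choose_le_pow _ _).trans (Nat.pow_le_pow_left (by omega) _))
      _ = (t - 1) * N ^ p := Nat.mul_comm _ _
  have h5 : ∑ y, (d y) ^ p ≤ (2 * p) ^ p * ((t - 1) * N ^ p + Fintype.card Y) := by
    calc ∑ y, (d y) ^ p ≤ ∑ y, (2 * p) ^ p * ((d y).choose p + 1) :=
          sum_le_sum fun y _ => pow_le_choose_add _ _ hp
      _ = (2 * p) ^ p * (∑ y, (d y).choose p + Fintype.card Y) := by
          rw [← mul_sum, sum_add_distrib, sum_const, card_univ, smul_eq_mul, mul_one]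
      _ ≤ _ := Nat.mul_le_mul_left _ (Nat.add_le_add_right h2 _)
  obtain ⟨q, rfl⟩ : ∃ q, p = q + 1 := ⟨p - 1, by omega⟩
  have h6 : (∑ y, d y) ^ (q + 1) ≤ (Fintype.card Y) ^ q * ∑ y, (d y) ^ (q + 1) := by
    rcases Nat.eq_zero_or_pos (Fintype.card Y) with h0 | h0
    · have : (univ : Finset Y) = ∅ := by
        rw [← card_eq_zero, card_univ, h0]
      rw [this]
      simp
    · have h7 := pow_sum_div_card_le_sum_pow (s := (univ : Finset Y)) (f := fun y => (d y : ℝ))
        (fun _ _ => Nat.cast_nonneg _) q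
      rw [card_univ, div_le_iff₀ (by positivity)] at h7
      rw [mul_comm]
      exact_mod_cast h7
  have h8 : N ^ (2 * (q + 1) - 1) = N ^ q * N ^ (q + 1) := by
    rw [← pow_add]; congr 1; omega
  rw [h1, h8]
  have hY : Fintype.card Y ≤ N := by omega
  have hX : Fintype.card Y ≤ N ^ (q + 1) := by
    calc Fintype.card Y ≤ N := hY
      _ ≤ N ^ (q + 1) := Nat.le_self_pow (by omega) N
  have h9 : (t - 1) * N ^ (q + 1) + Fintype.card Y ≤ t * N ^ (q + 1) := by
    obtain ⟨u, rfl⟩ : ∃ u, t = u + 1 := ⟨t - 1, by omega⟩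
    rw [Nat.add_sub_cancel, Nat.succ_mul]
    omega
  calc (∑ y, d y) ^ (q + 1) ≤ (Fintype.card Y) ^ q * ∑ y, (d y) ^ (q + 1) := h6
    _ ≤ N ^ q * ((2 * (q + 1)) ^ (q + 1) * (t * N ^ (q + 1))) :=
        Nat.mul_le_mul (Nat.pow_le_pow_left hY q) (h5.trans (Nat.mul_le_mul_left _ h9))
    _ = _ := by ring

section Levels

variable {X Y : Type*} [Fintype X] [DecidableEq X] [DecidableEq Y]

/-- The elements below `x` among the neighbours of `y`. -/
noncomputable def below [SemilatticeInf X] (E : Finset (X × Y)) (x : X) (y : Y) : Finset X := by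
  classical exact univ.filter fun x' => (x', y) ∈ E ∧ x' ≤ x

theorem mem_below [SemilatticeInf X] (E : Finset (X × Y)) (x : X) (y : Y) (x' : X) :
    x' ∈ below E x y ↔ (x', y) ∈ E ∧ x' ≤ x := by
  simp [below]

/-- The pairs for which there are exactly `j` such elements. -/
noncomputable def level [SemilatticeInf X] (E : Finset (X × Y)) (j : ℕ) : Finset (X × Y) := by
  classical exact E.filter fun e => #(below E e.1 e.2) = j

theorem mem_level [SemilatticeInf X] (E : Finset (X × Y)) (j : ℕ) (e : X × Y) :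
    e ∈ level E j ↔ e ∈ E ∧ #(below E e.1 e.2) = j := by
  simp [level]

/-- A set of `p ≥ 2` elements of `X` all joined to `y` in the same level is an antichain, so its
infimum is a new common neighbour. -/
theorem level_free [SemilatticeInf X] (E : Finset (X × Y))
    (hE : ∀ y x x', (x, y) ∈ E → (x', y) ∈ E → (x ⊓ x', y) ∈ E) (p t j : ℕ) (hp : 2 ≤ p)
    (ht : 1 ≤ t)
    (hfree : ∀ (S : Finset X) (T : Finset Y), #S = p + 1 → #T = t → ¬∀ x ∈ S, ∀ y ∈ T, (x, y) ∈ E)
    (S : Finset X) (T : Finset Y) (hS : #S = p) (hT : #T = t) :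
    ¬∀ x ∈ S, ∀ y ∈ T, (x, y) ∈ level E j := by
  intro h
  have hne : S.Nonempty := card_pos.1 (by omega)
  have hu : ∀ y ∈ T, (S.inf' hne id, y) ∈ E := by
    intro y hy
    exact Finset.inf'_mem {x : X | (x, y) ∈ E} (fun a ha b hb => hE y a b ha hb) S hne id
      (fun i hi => ((mem_level _ _ _).1 (h i hi y hy)).1)
  have hnot : S.inf' hne id ∉ S := by
    intro hmem
    obtain ⟨x, hx, hxne⟩ := exists_mem_ne (by omega : 1 < #S) (S.inf' hne id)
    have hle : S.inf' hne id ≤ x := Finset.inf'_le id hx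
    obtain ⟨y, hy⟩ : T.Nonempty := card_pos.1 (by omega)
    have h1 := (mem_level _ _ _).1 (h _ hmem y hy)
    have h2 := (mem_level _ _ _).1 (h x hx y hy)
    have hss : below E (S.inf' hne id) y ⊂ below E x y := by
      rw [ssubset_iff_of_subset]
      · refine ⟨x, (mem_below _ _ _ _).2 ⟨h2.1, le_rfl⟩, fun hx' => ?_⟩
        exact hxne (le_antisymm ((mem_below _ _ _ _).1 hx').2 hle)
      · intro x' hx'
        rw [mem_below] at hx' ⊢
        exact ⟨hx'.1, hx'.2.trans hle⟩
    have := card_lt_card hss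
    simp only at h1 h2
    omega
  refine hfree (insert (S.inf' hne id) S) T (by rw [card_insert_of_notMem hnot, hS]) hT ?_
  intro x hx y hy
  rw [mem_insert] at hx
  rcases hx with rfl | hx
  · exact hu y hy
  · exact ((mem_level _ _ _).1 (h x hx y hy)).1

/-- If `#(below)` is less than `t` for all pairs of `E'`, these pairs are covered by levels. -/
theorem card_low [SemilatticeInf X] (E : Finset (X × Y)) (t : ℕ) :
    #(E.filter fun e => #(below E e.1 e.2) < t) ≤ ∑ j ∈ range t, #(level E j) := by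
  rw [card_eq_sum_card_fiberwise (f := fun e => #(below E e.1 e.2)) (t := range t)
    (fun e he => by simpa using (mem_filter.1 he).2)]
  refine sum_le_sum fun j _ => card_le_card fun e he => ?_
  rw [mem_filter, mem_filter] at he
  rw [mem_level]
  exact ⟨he.1.1, he.2⟩

end Levels

/-- The bound for relations closed under componentwise meets. -/
theorem drop {X Y : Type*} [Fintype X] [Fintype Y] [SemilatticeInf X] [SemilatticeInf Y]
    (E : Set (X × Y)) (hE : ∀ e ∈ E, ∀ e' ∈ E, e ⊓ e' ∈ E) (s t : ℕ) (hs : 3 ≤ s) (hst : s ≤ t)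
    (hfree : (completeBipartiteGraph (Fin s) (Fin t)).Free (relGraph E)) :
    E.ncard ^ (s - 1) ≤ (4 * t * (s - 1)) ^ (s - 1) * t *
      (Fintype.card X + Fintype.card Y) ^ (2 * s - 3) := by
  classical
  obtain ⟨F, rfl⟩ := (Set.toFinite E).exists_finset_coe
  rw [Set.ncard_coe_finset]
  simp only [mem_coe] at hE
  obtain ⟨p, rfl⟩ : ∃ p, s = p + 1 := ⟨s - 1, by omega⟩
  rw [Nat.add_sub_cancel]
  -- the swapped relation
  set F' : Finset (Y × X) := F.image Prod.swap with hF'
  have hmem' : ∀ x y, (y, x) ∈ F' ↔ (x, y) ∈ F := by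
    intro x y
    rw [hF', mem_image]
    constructor
    · rintro ⟨⟨a, b⟩, hab, h⟩
      simp only [Prod.swap_prod_mk, Prod.mk.injEq] at h
      rw [← h.1, ← h.2]; exact hab
    · exact fun h => ⟨(x, y), h, rfl⟩
  have hcl : ∀ y x x', (x, y) ∈ F → (x', y) ∈ F → (x ⊓ x', y) ∈ F := by
    intro y x x' h h'
    have := hE _ h _ h'
    rwa [Prod.mk_inf_mk, inf_idem] at this
  have hcl' : ∀ x y y', (y, x) ∈ F' → (y', x) ∈ F' → (y ⊓ y', x) ∈ F' := by
    intro x y y' h h'
    rw [hmem'] at h h' ⊢
    have := hE _ h _ h'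
    rwa [Prod.mk_inf_mk, inf_idem] at this
  have hf1 : ∀ (S : Finset X) (T : Finset Y), #S = p + 1 → #T = t →
      ¬∀ x ∈ S, ∀ y ∈ T, (x, y) ∈ F := fun S T hS hT h =>
    not_free_left S T hS.ge hT.ge (fun x hx y hy => mem_coe.2 (h x hx y hy)) hfree
  have hf2 : ∀ (S : Finset Y) (T : Finset X), #S = p + 1 → #T = t →
      ¬∀ y ∈ S, ∀ x ∈ T, (y, x) ∈ F' := fun S T hS hT h =>
    not_free_right T S hT.ge hS.ge (fun x hx y hy => mem_coe.2 ((hmem' x y).1 (h y hy x hx))) hfree
  set N := Fintype.card X + Fintype.card Y with hN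
  set K := (2 * p) ^ p * t * N ^ (2 * p - 1) with hK
  have hl : ∀ j, #(level F j) ^ p ≤ K := fun j =>
    kst _ p t (by omega) (by omega) (level_free F hcl p t j (by omega) (by omega) hf1)
  have hl' : ∀ j, #(level F' j) ^ p ≤ K := fun j => by
    have := kst _ p t (by omega) (by omega) (level_free F' hcl' p t j (by omega) (by omega) hf2)
    rwa [Nat.add_comm (Fintype.card Y), ← hN] at this
  -- covering
  have hcov : #F ≤ ∑ j ∈ range t, #(level F j) + ∑ j ∈ range t, #(level F' j) := by
    have h1 : F ⊆ (F.filter fun e => #(below F e.1 e.2) < t) ∪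
        ((F'.filter fun e => #(below F' e.1 e.2) < t).image Prod.swap) := by
      rintro ⟨x, y⟩ he
      rw [mem_union]
      by_cases h2 : #(below F x y) < t
      · exact Or.inl (mem_filter.2 ⟨he, h2⟩)
      · refine Or.inr (mem_image.2 ⟨(y, x), mem_filter.2 ⟨(hmem' x y).2 he, ?_⟩, rfl⟩)
        by_contra h3
        push Not at h2
        simp only [not_lt] at h3
        refine not_free_left (s := p + 1) (t := t) (E := (F : Set (X × Y))) (below F x y)
          (below F' y x) (hst.trans h2) h3 (fun x' hx' y' hy' => ?_) hfree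
        rw [mem_below] at hx' hy'
        rw [hmem'] at hy'
        have := hE _ hx'.1 _ hy'.1
        rw [Prod.mk_inf_mk, inf_eq_left.2 hx'.2, inf_eq_right.2 hy'.2] at this
        exact mem_coe.2 this
    calc #F ≤ _ := card_le_card h1
      _ ≤ _ := card_union_le _ _
      _ ≤ _ := Nat.add_le_add (card_low F t) (card_image_le.trans (card_low F' t))
  by_contra hcon
  push Not at hcon
  have hcon' : (2 * t) ^ p * K < #F ^ p := by
    refine lt_of_eq_of_lt ?_ hcon
    rw [hK]
    have : 2 * (p + 1) - 3 = 2 * p - 1 := by omega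
    rw [this, show 4 * t * p = (2 * t) * (2 * p) by ring, mul_pow (2 * t) (2 * p)]
    simp only [mul_assoc]
  have hb : ∀ c : ℕ, c ^ p ≤ K → 2 * t * c < #F := by
    intro c hc
    refine lt_of_pow_lt_pow_left₀ p (Nat.zero_le _) ?_
    rw [mul_pow]
    exact lt_of_le_of_lt (Nat.mul_le_mul_left _ hc) hcon'
  have h5 : 2 * t * #F < 2 * t * #F := by
    calc 2 * t * #F ≤ 2 * t * (∑ j ∈ range t, #(level F j) + ∑ j ∈ range t, #(level F' j)) :=
          Nat.mul_le_mul_left _ hcov
      _ = ∑ j ∈ range t, 2 * t * #(level F j) + ∑ j ∈ range t, 2 * t * #(level F' j) := by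
          rw [mul_add, mul_sum, mul_sum]
      _ < ∑ j ∈ range t, #F + ∑ j ∈ range t, #F := by
          refine Nat.add_lt_add (sum_lt_sum_of_nonempty ⟨0, by simp; omega⟩ fun j _ => hb _ (hl j))
            (sum_lt_sum_of_nonempty ⟨0, by simp; omega⟩ fun j _ => hb _ (hl' j))
      _ = 2 * t * #F := by
          rw [sum_const, card_range, smul_eq_mul]; ring
  exact lt_irrefl _ h5

end Pool.Agent.TH602.Turan
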